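import Pool.Agent.Lib_helper19.KdV.Location2

/-!
# MP_893799_an: where the bubble is, for mass less than twice the mass of the ground state

Let `u` be an `H¹` solution of the critical gKdV equation `∂_t u + ∂_x (∂_x² u + u⁵) = 0` on
`[0, T)` whose mass is less than `2‖Q‖²` and which blows up at `T` at the rate `ν > 1/3`, i.e.
`(T - t)^ν ‖∂_x u(t)‖ → C ∈ (0, ∞)`.  Then there is one moving point `y(t)` such that, for `t` near
`T`, the windows `|x - y(t)| = O((T - t)^ν)` carry the mass `‖Q‖² - η`, and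

* if `ν < 1/2`, then `x₀ - y(t)` lies between two positive multiples of `(T - t)^(1 - 2ν)`;
* if `ν ≥ 1/2`, then `y(t)` lies between two positive multiples of `∫_0^t (T - s)^(-2ν) ds`
  (that is, of `log (1 / (T - t))` if `ν = 1/2` and of `(T - t)^(1 - 2ν)` if `ν > 1/2`).

So the bubble moves to the right at the speed `‖∂_x u(t)‖²`, up to constants, whatever the
distance of `u` to the family of solitons is.

Idea.  The mass outside the bubble is less than `‖Q‖²`, so that a sharp Gagliardo-Nirenberg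
inequality, localised outside an interval `[a, b]` that contains the bubble (Picone identity in
the mass variable), gives `5/3 ∫ u⁶ θ - 3 ∫ v² θ ≥ μ ∫ v²` for cut-offs `θ` of `[a, b]`.  The local
mass identity with the weight `∫ θ` turns this into a lower bound of the speed of the bubble.
-/

namespace Pool.Agent.Results.MP_893799_an.BubbleLocation

open MeasureTheory Set Filter Topology
open Pool.Agent.Lib_helper19.KdV

theorem result (T ν C : ℝ) (u v : ℝ → ℝ → ℝ) (hT : 0 < T) (hν : 1 / 3 < ν) (hC : 0 < C)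
    (h : H1Sol T u v) (hM : ∫ x, u 0 x ^ 2 < 2 * massQ)
    (hrate : Tendsto (fun t => (T - t) ^ ν * Real.sqrt (∫ x, v t x ^ 2)) (𝓝[<] T) (𝓝 C)) :
    ∃ y : ℝ → ℝ,
      (∀ η > 0, ∃ A > 0, ∀ᶠ t in 𝓝[<] T,
        massQ - η ≤ ∫ x in {x : ℝ | |x - y t| ≤ A * (T - t) ^ ν}, u t x ^ 2) ∧
      (ν < 1 / 2 → ∃ x₀ c A : ℝ, 0 < c ∧ ∀ᶠ t in 𝓝[<] T,
        c * (T - t) ^ (1 - 2 * ν) ≤ x₀ - y t ∧ x₀ - y t ≤ A * (T - t) ^ (1 - 2 * ν)) ∧
      (1 / 2 ≤ ν → ∃ c A : ℝ, 0 < c ∧ ∀ᶠ t in 𝓝[<] T,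
        c * (∫ s in (0 : ℝ)..t, (T - s) ^ (-(2 * ν))) ≤ y t ∧
        y t ≤ A * ∫ s in (0 : ℝ)..t, (T - s) ^ (-(2 * ν))) := by
  have hG0 : ∀ t, 0 ≤ ∫ x, v t x ^ 2 := fun t => integral_nonneg fun x => sq_nonneg _
  have hν0 : 0 < ν := by linarith
  have hQ := massQ_pos
  set M := ∫ x, u (T / 2) x ^ 2 with hMdef
  rw [h.mass_zero hT] at hM
  set d := 2 * massQ - M with hd
  have hd0 : 0 < d := by rw [hd]; linarith
  set η₀ := min (d / 8) (massQ / 8) with hη₀def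
  have hη₀ : 0 < η₀ := lt_min (by linarith) (by linarith)
  have hη₀d : η₀ ≤ d / 8 := min_le_left _ _
  have hη₀Q : η₀ ≤ massQ / 8 := min_le_right _ _
  set m := max (M - (massQ - η₀)) (massQ / 2) with hmdef
  have hm0 : 0 < m := lt_of_lt_of_le (by linarith) (le_max_right _ _)
  have hmQ : m < massQ := max_lt (by linarith) (by linarith)
  obtain ⟨μ, Cs, hμ, hCs, hflux⟩ := h.flux_lower hT hm0 hmQ
  obtain ⟨l₁, hl₁T, hl₁⟩ := ev_iff.1 (rate_lower hC hG0 hrate)
  obtain ⟨l₂, hl₂T, hl₂⟩ := ev_iff.1 (rate_upper hC hG0 hrate)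
  obtain ⟨A₀, hA₀, hev⟩ := h.concScale (C := C ^ 2 / 4) (t₀ := max 0 l₁) hT (le_max_left _ _)
    (max_lt hT hl₁T) (by positivity) hν0
    (fun t ht => hl₁ t ⟨lt_of_le_of_lt (le_max_right _ _) ht.1, ht.2⟩) hη₀ (by linarith)
  obtain ⟨l₃, hl₃T, hl₃⟩ := ev_iff.1 hev
  have hch : ∀ t, ∃ z : ℝ, t ∈ Ioo l₃ T →
      massQ - η₀ ≤ ∫ x in {x : ℝ | |x - z| ≤ A₀ * (T - t) ^ ν}, u t x ^ 2 := by
    intro t
    by_cases ht : t ∈ Ioo l₃ T
    · obtain ⟨z, hz⟩ := hl₃ t ht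
      exact ⟨z, fun _ => hz⟩
    · exact ⟨0, fun h' => absurd h' ht⟩
  choose y hy using hch
  set t₁ := max (max (T / 2) (T - 1)) (max l₁ (max l₂ l₃)) with ht₁def
  have e1 : T / 2 ≤ t₁ := (le_max_left _ _).trans (le_max_left _ _)
  have e2 : T - 1 ≤ t₁ := (le_max_right _ _).trans (le_max_left _ _)
  have e3 : l₁ ≤ t₁ := (le_max_left _ _).trans (le_max_right _ _)
  have e4 : l₂ ≤ t₁ := (le_max_left _ _).trans ((le_max_right _ _).trans (le_max_right _ _))
  have e5 : l₃ ≤ t₁ := (le_max_right _ _).trans ((le_max_right _ _).trans (le_max_right _ _))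
  have ht₁T : t₁ < T :=
    max_lt (max_lt (by linarith) (by linarith)) (max_lt hl₁T (max_lt hl₂T hl₃T))
  have hMpos : 0 < M := by
    have ht : (t₁ + T) / 2 ∈ Ioo l₃ T := ⟨by linarith, by linarith⟩
    have ht' : (t₁ + T) / 2 ∈ Ioo 0 T := ⟨by linarith, by linarith⟩
    have h1 := hy _ ht
    have h2 := h.int_u ht'
    have h3 : ∫ x in {x : ℝ | |x - y ((t₁ + T) / 2)| ≤ A₀ * (T - (t₁ + T) / 2) ^ ν},
        u ((t₁ + T) / 2) x ^ 2 ≤ ∫ x, u ((t₁ + T) / 2) x ^ 2 :=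
      setIntegral_le_integral h2 (Eventually.of_forall fun x => sq_nonneg _)
    have h4 := h.mass_eq hT ht'
    rw [hMdef]
    linarith
  have S : Loc T ν M d η₀ m μ Cs A₀ (C ^ 2 / 4) (4 * C ^ 2) t₁ u v y :=
    { hT := hT
      hν := hν
      sol := h
      hM := rfl
      hMpos := hMpos
      hd := rfl
      hd0 := hd0
      hη₀ := hη₀
      hη₀d := hη₀d
      hη₀Q := hη₀Q
      hm := le_max_left _ _
      hμ := hμ
      hCs := hCs
      hflux := hflux
      hA₀ := hA₀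
      hc₀ := by positivity
      hC₁ := by positivity
      ht₁ := by linarith
      ht₁T := ht₁T
      ht₁1 := by linarith
      low := fun t ht => hl₁ t ⟨lt_of_le_of_lt e3 ht.1, ht.2⟩
      up := fun t ht => hl₂ t ⟨lt_of_le_of_lt e4 ht.1, ht.2⟩
      bub := fun t ht => hy t ⟨lt_of_le_of_lt e5 ht.1, ht.2⟩ }
  exact ⟨y, fun η hη => S.all hη, fun hν2 => S.finite hν2, fun hν2 => S.infinite hν2⟩

end Pool.Agent.Results.MP_893799_an.BubbleLocation
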