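import Pool.Agent.Lib_helper19.KdV.Final

/-!
# MP_893799_an: finite point or infinity, the dichotomy at the blow-up rate 1/2

Let `u` be an `H¹` solution of the critical gKdV equation `∂_t u + ∂_x (∂_x² u + u⁵) = 0` on
`[0, T)` which blows up at `T` at the rate `ν`, i.e. `(T - t)^ν ‖∂_x u(t)‖ → C ∈ (0, ∞)`.

* If `ν < 1/2`, no mass escapes to infinity, the densities `u(t)²` converge weakly, and at least the
  mass `‖Q‖²` of the ground state concentrates at a fixed point `x₀` of the line, in windows of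
  size `O((T - t)^(1 - 2ν))`.
* If `ν ≥ 1/2`, bubbles of mass at least `‖Q‖²` and of size `O((T - t)^ν)` occur outside every
  bounded set at times arbitrarily close to `T`; in particular the mass is not tight.

Idea.  The local mass identity moves mass at speed `O(‖∂_x u‖²)`, which is integrable in time if and
only if `ν < 1/2`.  If there is no bubble outside a ball, then a sharp Gagliardo-Nirenberg
inequality, localised with the help of a Picone identity in the mass variable, shows that the mass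
to the right of the ball grows at least at the rate `c ‖∂_x u‖²`, whose integral diverges if
`ν ≥ 1/2`.
-/

namespace Pool.Agent.Results.MP_893799_an.RateHalfDichotomy

open MeasureTheory Set Filter Topology
open Pool.Agent.Lib_helper19.KdV

theorem result (T ν C : ℝ) (u v : ℝ → ℝ → ℝ) (hT : 0 < T) (hν : 1 / 3 ≤ ν) (hC : 0 < C)
    (h : H1Sol T u v)
    (hrate : Tendsto (fun t => (T - t) ^ ν * Real.sqrt (∫ x, v t x ^ 2)) (𝓝[<] T) (𝓝 C)) :
    (ν < 1 / 2 →
      (∀ ε > 0, ∃ R > 0, ∀ᶠ t in 𝓝[<] T, ∫ x in {x : ℝ | R < |x|}, u t x ^ 2 ≤ ε) ∧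
      (∀ φ : ℝ → ℝ, Continuous φ → (∃ B, ∀ x, |φ x| ≤ B) →
        ∃ L, Tendsto (fun t => ∫ x, φ x * u t x ^ 2) (𝓝[<] T) (𝓝 L)) ∧
      ∃ x₀, ∀ η > 0, ∃ A > 0, ∀ᶠ t in 𝓝[<] T,
        massQ - η ≤ ∫ x in {x : ℝ | |x - x₀| ≤ A * (T - t) ^ (1 - 2 * ν)}, u t x ^ 2) ∧
    (1 / 2 ≤ ν → ∀ η > 0, ∃ A > 0, ∀ R > 0, ∃ᶠ t in 𝓝[<] T, ∃ y, R < |y| ∧
        massQ - η ≤ ∫ x in {x : ℝ | |x - y| ≤ A * (T - t) ^ ν}, u t x ^ 2) := by
  have hG0 : ∀ t, 0 ≤ ∫ x, v t x ^ 2 := fun t => integral_nonneg fun x => sq_nonneg _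
  have hν0 : 0 < ν := by linarith
  constructor
  · intro hν2
    obtain ⟨l, hlT, hl⟩ := ev_iff.1 (rate_upper hC hG0 hrate)
    have hinf := rate_infty hν0 hC hG0 hrate
    set t₀ := max 0 l with ht₀
    have ht₀0 : 0 ≤ t₀ := le_max_left _ _
    have ht₀T : t₀ < T := max_lt hT hlT
    have hα : 0 < 1 - 2 * ν := by linarith
    have hA : 0 ≤ 4 * C ^ 2 := by positivity
    have hG : ∀ t ∈ Ioo t₀ T, ∫ x, v t x ^ 2 ≤ 4 * C ^ 2 * (T - t) ^ (1 - 2 * ν - 1) := by
      intro t ht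
      have e : 1 - 2 * ν - 1 = -(2 * ν) := by ring
      rw [e]
      exact hl t ⟨lt_of_le_of_lt (le_max_right _ _) ht.1, ht.2⟩
    refine ⟨fun ε hε => h.tight hT ht₀0 ht₀T hA hα hG hε,
      fun φ hφ ⟨B, hB⟩ => h.weak hT ht₀0 ht₀T hA hα hG hφ hB, ?_⟩
    obtain ⟨x₀, hx₀⟩ := h.point hT ht₀0 ht₀T hA hα hG hinf
    exact ⟨x₀, fun η hη => h.window hT ht₀0 ht₀T hA hα (by linarith) hG hx₀ hη⟩
  · intro hν2 η hη
    rcases le_or_gt massQ η with hle | hlt
    · refine ⟨1, one_pos, fun R hR => ?_⟩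
      have : ∀ᶠ t in 𝓝[<] T, ∃ y, R < |y| ∧
          massQ - η ≤ ∫ x in {x : ℝ | |x - y| ≤ 1 * (T - t) ^ ν}, u t x ^ 2 := by
        filter_upwards with t
        refine ⟨R + 1, by rw [abs_of_pos (by linarith)]; linarith, ?_⟩
        have h1 : 0 ≤ ∫ x in {x : ℝ | |x - (R + 1)| ≤ 1 * (T - t) ^ ν}, u t x ^ 2 :=
          setIntegral_nonneg (measurableSet_win _ _) fun x _ => sq_nonneg _
        linarith
      exact this.frequently
    · obtain ⟨l, hlT, hl⟩ := ev_iff.1 (rate_lower hC hG0 hrate)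
      exact h.escape (C := C ^ 2 / 4) (t₀ := max 0 l) hT (le_max_left _ _) (max_lt hT hlT)
        (by positivity) hν2
        (fun t ht => hl t ⟨lt_of_le_of_lt (le_max_right _ _) ht.1, ht.2⟩) hη hlt

end Pool.Agent.Results.MP_893799_an.RateHalfDichotomy
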